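import Pool.Agent.Y336.RW.Stm

set_option autoImplicit false

/-!
Project RW, job KILL: multiples of points reducing to order 2 or 3.
-/

open WeierstrassCurve

namespace Pool.Agent.Y431.RW

open Pool.Agent.Y336.RW

section norms

variable {p : ℕ} [hp : Fact p.Prime]

lemma add_lt {a b : ℚ} (ha : padicNorm p a < 1) (hb : padicNorm p b < 1) :
    padicNorm p (a + b) < 1 :=
  lt_of_le_of_lt padicNorm.nonarchimedean (max_lt ha hb)

lemma add_le {a b : ℚ} (ha : padicNorm p a ≤ 1) (hb : padicNorm p b ≤ 1) :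
    padicNorm p (a + b) ≤ 1 :=
  padicNorm.nonarchimedean.trans (max_le ha hb)

omit hp in
lemma neg_eq (a : ℚ) : padicNorm p (-a) = padicNorm p a := padicNorm.neg a

lemma sub_le {a b : ℚ} (ha : padicNorm p a ≤ 1) (hb : padicNorm p b ≤ 1) :
    padicNorm p (a - b) ≤ 1 := by
  rw [sub_eq_add_neg]
  exact add_le ha (by rwa [neg_eq])

lemma sub_lt {a b : ℚ} (ha : padicNorm p a < 1) (hb : padicNorm p b < 1) :
    padicNorm p (a - b) < 1 := by
  rw [sub_eq_add_neg]
  exact add_lt ha (by rwa [neg_eq])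

lemma mul_lt {a b : ℚ} (ha : padicNorm p a < 1) (hb : padicNorm p b ≤ 1) :
    padicNorm p (a * b) < 1 := by
  rw [padicNorm.mul]
  calc padicNorm p a * padicNorm p b ≤ padicNorm p a * 1 :=
        mul_le_mul_of_nonneg_left hb (padicNorm.nonneg a)
    _ = padicNorm p a := mul_one _
    _ < 1 := ha

lemma mul_lt' {a b : ℚ} (ha : padicNorm p a ≤ 1) (hb : padicNorm p b < 1) :
    padicNorm p (a * b) < 1 := by
  rw [mul_comm]
  exact mul_lt hb ha

lemma mul_le {a b : ℚ} (ha : padicNorm p a ≤ 1) (hb : padicNorm p b ≤ 1) :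
    padicNorm p (a * b) ≤ 1 := by
  rw [padicNorm.mul]
  exact mul_le_one₀ ha (padicNorm.nonneg b) hb

/-- perturbation of a unit -/
lemma unit_add {a b : ℚ} (ha : padicNorm p a = 1) (hb : padicNorm p b < 1) :
    padicNorm p (a + b) = 1 := by
  have h := padicNorm.add_eq_max_of_ne (p := p) (q := a) (r := b) (by rw [ha]; exact ne_of_gt hb)
  rw [h, ha]
  exact max_eq_left hb.le

lemma of_int_le (m : ℤ) : padicNorm p (m : ℚ) ≤ 1 := padicNorm.of_int m

lemma int_unit {m : ℤ} (h : ¬ (p : ℤ) ∣ m) : padicNorm p (m : ℚ) = 1 :=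
  padicNorm.int_eq_one_iff m |>.2 h

end norms

/-- `p ≥ 7` does not divide numbers composed of `2`, `3`, `5` -/
lemma not_dvd {p : ℕ} (hp : p.Prime) (h7 : 7 ≤ p) (a b : ℕ) : ¬ (p : ℤ) ∣ 2 ^ a * 5 ^ b := by
  intro h
  have h1 : p ∣ 2 ^ a * 5 ^ b := by exact_mod_cast h
  rcases (Nat.Prime.dvd_mul hp).1 h1 with h2 | h2
  · have := Nat.le_of_dvd (by norm_num) (hp.dvd_of_dvd_pow h2)
    omega
  · have := Nat.le_of_dvd (by norm_num) (hp.dvd_of_dvd_pow h2)
    omega

lemma ker_neg (g : Grp) {p : ℕ} {R : E} (h : Ker p R) : Ker p (-R) := by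
  rcases h with h | h
  · left
    rw [h, neg_zero]
  · by_cases hR : R = 0
    · left
      rw [hR, neg_zero]
    · right
      rw [(g.neg R hR).2.1]
      exact h

lemma ker_add (g : Grp) (r : Red) {p : ℕ} (hp : p.Prime) {R S : E} (hR : Ker p R)
    (hS : Ker p S) : Ker p (R + S) := by
  have : Fact p.Prime := ⟨hp⟩
  by_contra h
  unfold Ker at h
  push Not at h
  obtain ⟨h0, h1⟩ := h
  have h2 := r p hp (-S) (R + S) (ker_neg g hS) h0 h1
  rw [add_neg_cancel_right] at h2
  rcases hR with h3 | h3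
  · exact h2.1 h3
  · have h4 : padicNorm p (xc R) ≤ 1 := by
      have := add_le (p := p) h2.2.le h1
      rwa [sub_add_cancel] at this
    linarith

lemma ker_zsmul (g : Grp) (r : Red) {p : ℕ} (hp : p.Prime) {R : E} (hR : Ker p R) (m : ℤ) :
    Ker p (m • R) := by
  have hn : ∀ n : ℕ, Ker p (n • R) := by
    intro n
    induction n with
    | zero =>
      left
      exact zero_nsmul R
    | succ n ih =>
      rw [succ_nsmul]
      exact ker_add g r hp ih hR
  rcases Int.eq_nat_or_neg m with ⟨n, rfl | rfl⟩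
  · rw [natCast_zsmul]
    exact hn n
  · rw [neg_zsmul, natCast_zsmul]
    exact ker_neg g (hn n)

/-- a point reducing to `(5, 0)` has its double in the kernel -/
lemma dbl_ker (g : Grp) {p : ℕ} (hp : p.Prime) (h7 : 7 ≤ p) {R : E} (h : K2 p R) :
    Ker p (R + R) := by
  have : Fact p.Prime := ⟨hp⟩
  obtain ⟨hR, hx⟩ := h
  by_cases hy : yc R = 0
  · left
    exact g.dbl0 R hR hy
  · right
    have he := g.eqn R hR
    have hd := (g.dbl R hR hy).2
    set x := xc R with hxdef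
    set y := yc R with hydef
    have h5 : padicNorm p ((5 : ℤ) : ℚ) = 1 := int_unit (by simpa using not_dvd hp h7 0 1)
    have h10 : padicNorm p ((10 : ℤ) : ℚ) = 1 := int_unit (by simpa using not_dvd hp h7 1 1)
    have h50 : padicNorm p ((50 : ℤ) : ℚ) = 1 := int_unit (by simpa using not_dvd hp h7 1 2)
    have hx1 : padicNorm p x = 1 := by
      have := unit_add h5 hx
      rwa [show ((5 : ℤ) : ℚ) + (x - 5) = x by push_cast; ring] at this
    have hx2 : padicNorm p (x + 5) = 1 := by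
      have := unit_add h10 hx
      rwa [show ((10 : ℤ) : ℚ) + (x - 5) = x + 5 by push_cast; ring] at this
    have h1 : padicNorm p (x ^ 2 + 25) = 1 := by
      have := unit_add h50 (mul_lt hx hx2.le)
      rwa [show ((50 : ℤ) : ℚ) + (x - 5) * (x + 5) = x ^ 2 + 25 by push_cast; ring] at this
    have h2 : padicNorm p (4 * y ^ 2) < 1 := by
      have e : 4 * y ^ 2 = ((4 : ℤ) : ℚ) * (x * ((x - 5) * (x + 5))) := by
        rw [he]
        push_cast
        ring
      rw [e]
      exact mul_lt' (of_int_le _) (mul_lt' hx1.le (mul_lt hx hx2.le))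
    by_contra hle
    push Not at hle
    have h4 : padicNorm p (xc (R + R) * (4 * y ^ 2)) < 1 := mul_lt' hle h2
    rw [hd, pow_two, padicNorm.mul, h1, mul_one] at h4
    exact lt_irrefl _ h4

/-- integrality and congruence of the coordinate under adding an element of the kernel -/
lemma shift (r : Red) {p : ℕ} (hp : p.Prime) {D R : E} (hD : Ker p D) (hR : R ≠ 0)
    (hx : padicNorm p (xc R) ≤ 1) :
    R + D ≠ 0 ∧ padicNorm p (xc (R + D) - xc R) < 1 ∧ padicNorm p (xc (R + D)) ≤ 1 := by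
  have : Fact p.Prime := ⟨hp⟩
  have h := r p hp D R hD hR hx
  refine ⟨h.1, h.2, ?_⟩
  have := add_le (p := p) h.2.le hx
  rwa [sub_add_cancel] at this

lemma k2_int {p : ℕ} (hp : p.Prime) {R : E} (h : K2 p R) : padicNorm p (xc R) ≤ 1 := by
  have : Fact p.Prime := ⟨hp⟩
  have h1 := add_le (p := p) h.2.le (of_int_le (p := p) 5)
  rwa [show xc R - 5 + ((5 : ℤ) : ℚ) = xc R by push_cast; ring] at h1

lemma k2_shift (r : Red) {p : ℕ} (hp : p.Prime) {D R : E} (hD : Ker p D) (h : K2 p R) :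
    K2 p (R + D) := by
  have : Fact p.Prime := ⟨hp⟩
  have h1 := shift r hp hD h.1 (k2_int hp h)
  refine ⟨h1.1, ?_⟩
  have h2 := add_lt (p := p) h1.2.1 h.2
  rwa [sub_add_sub_cancel] at h2

lemma k3_shift (r : Red) {p : ℕ} (hp : p.Prime) {D R : E} (hD : Ker p D) (h : K3 p R) :
    K3 p (R + D) := by
  have : Fact p.Prime := ⟨hp⟩
  have h1 := shift r hp hD h.1 h.2.1
  refine ⟨h1.1, h1.2.2, ?_⟩
  set x := xc R with hx
  set x' := xc (R + D) with hx'
  have hxi : padicNorm p x ≤ 1 := h.2.1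
  have hxi' : padicNorm p x' ≤ 1 := h1.2.2
  have e : 3 * x' ^ 4 - 150 * x' ^ 2 - 625 = (3 * x ^ 4 - 150 * x ^ 2 - 625) +
      (x' - x) * ((x' + x) * (((3 : ℤ) : ℚ) * (x' * x' + x * x) - ((150 : ℤ) : ℚ))) := by
    push_cast
    ring
  rw [e]
  refine add_lt h.2.2 (mul_lt h1.2.1 (mul_le (add_le hxi' hxi) (sub_le ?_ (of_int_le _))))
  exact mul_le (of_int_le _) (add_le (mul_le hxi' hxi') (mul_le hxi hxi))

lemma k3_neg (g : Grp) {p : ℕ} {R : E} (h : K3 p R) : K3 p (-R) := by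
  have h1 := g.neg R h.1
  refine ⟨h1.1, ?_, ?_⟩
  · rw [h1.2.1]
    exact h.2.1
  · rw [h1.2.1]
    exact h.2.2

/-- a point reducing to a point of order 3 has its triple in the kernel -/
lemma triple_ker (g : Grp) {p : ℕ} (hp : p.Prime) (h7 : 7 ≤ p) {R : E} (h : K3 p R) :
    Ker p (R + R + R) := by
  have : Fact p.Prime := ⟨hp⟩
  obtain ⟨hR, hxi, hpsi⟩ := h
  have he := g.eqn R hR
  set x := xc R with hxdef
  set y := yc R with hydef
  -- units
  have hx1 : padicNorm p x = 1 := by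
    by_contra hne
    have hlt : padicNorm p x < 1 := lt_of_le_of_ne hxi hne
    have h625 : padicNorm p ((625 : ℤ) : ℚ) = 1 := int_unit (by simpa using not_dvd hp h7 0 4)
    have h1 : padicNorm p (x * (x * (((3 : ℤ) : ℚ) * (x * x) - ((150 : ℤ) : ℚ)))) < 1 :=
      mul_lt hlt (mul_le hxi (sub_le (mul_le (of_int_le _) (mul_le hxi hxi)) (of_int_le _)))
    have h2 := sub_lt h1 hpsi
    rw [show x * (x * (((3 : ℤ) : ℚ) * (x * x) - ((150 : ℤ) : ℚ))) -
      (3 * x ^ 4 - 150 * x ^ 2 - 625) = ((625 : ℤ) : ℚ) by push_cast; ring, h625] at h2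
    exact lt_irrefl _ h2
  have hm : padicNorm p (x ^ 2 - 25) = 1 := by
    have hle : padicNorm p (x ^ 2 - 25) ≤ 1 := by
      have := sub_le (mul_le hxi hxi) (of_int_le (p := p) 25)
      rwa [show x * x - ((25 : ℤ) : ℚ) = x ^ 2 - 25 by push_cast; ring] at this
    by_contra hne
    have hlt : padicNorm p (x ^ 2 - 25) < 1 := lt_of_le_of_ne hle hne
    have h2500 : padicNorm p ((2500 : ℤ) : ℚ) = 1 := int_unit (by simpa using not_dvd hp h7 2 4)
    have h1 : padicNorm p ((x ^ 2 - 25) * (((3 : ℤ) : ℚ) * (x * x) - ((75 : ℤ) : ℚ))) < 1 :=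
      mul_lt hlt (sub_le (mul_le (of_int_le _) (mul_le hxi hxi)) (of_int_le _))
    have h2 := sub_lt h1 hpsi
    rw [show (x ^ 2 - 25) * (((3 : ℤ) : ℚ) * (x * x) - ((75 : ℤ) : ℚ)) -
      (3 * x ^ 4 - 150 * x ^ 2 - 625) = ((2500 : ℤ) : ℚ) by push_cast; ring, h2500] at h2
    exact lt_irrefl _ h2
  have hpl : padicNorm p (x ^ 2 + 25) = 1 := by
    have hle : padicNorm p (x ^ 2 + 25) ≤ 1 := by
      have := add_le (mul_le hxi hxi) (of_int_le (p := p) 25)
      rwa [show x * x + ((25 : ℤ) : ℚ) = x ^ 2 + 25 by push_cast; ring] at this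
    by_contra hne
    have hlt : padicNorm p (x ^ 2 + 25) < 1 := lt_of_le_of_ne hle hne
    have h5000 : padicNorm p ((5000 : ℤ) : ℚ) = 1 := int_unit (by simpa using not_dvd hp h7 3 4)
    have h1 : padicNorm p ((x ^ 2 + 25) * (((3 : ℤ) : ℚ) * (x * x) - ((225 : ℤ) : ℚ))) < 1 :=
      mul_lt hlt (sub_le (mul_le (of_int_le _) (mul_le hxi hxi)) (of_int_le _))
    have h2 := sub_lt hpsi h1
    rw [show (3 * x ^ 4 - 150 * x ^ 2 - 625) -
      (x ^ 2 + 25) * (((3 : ℤ) : ℚ) * (x * x) - ((225 : ℤ) : ℚ)) = ((5000 : ℤ) : ℚ) by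
        push_cast; ring, h5000] at h2
    exact lt_irrefl _ h2
  have h4 : padicNorm p ((4 : ℤ) : ℚ) = 1 := int_unit (by simpa using not_dvd hp h7 2 0)
  have hy2 : padicNorm p (4 * y ^ 2) = 1 := by
    rw [show 4 * y ^ 2 = ((4 : ℤ) : ℚ) * (x * (x ^ 2 - 25)) by rw [he]; push_cast; ring,
      padicNorm.mul, padicNorm.mul, h4, hx1, hm]
    norm_num
  have hy : y ≠ 0 := by
    intro h0
    rw [h0] at hy2
    simp at hy2
  obtain ⟨hRR, hd⟩ := g.dbl R hR hy
  set x2 := xc (R + R) with hx2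
  have hdiff : padicNorm p (x2 - x) < 1 := by
    have e : (x2 - x) * (4 * y ^ 2) = -(3 * x ^ 4 - 150 * x ^ 2 - 625) := by
      rw [sub_mul, hd, he]
      ring
    have h1 := congrArg (padicNorm p) e
    rw [padicNorm.mul, hy2, mul_one, neg_eq] at h1
    rw [h1]
    exact hpsi
  by_cases heq : x2 = x
  · rcases g.ext (R + R) R hRR hR heq with h1 | h1
    · exact absurd (by simpa using h1) hR
    · left
      rw [h1]
      exact neg_add_cancel R
  · right
    obtain ⟨-, -, -, hprod⟩ := g.add (R + R) R hRR hR heq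
    rw [show R + R - R = R by abel] at hprod
    change xc (R + R + R) * x * (x2 - x) ^ 2 = (x2 * x + 25) ^ 2 at hprod
    have hu : padicNorm p (x2 * x + 25) = 1 := by
      have h1 := unit_add hpl (mul_lt hdiff hxi)
      rwa [show x ^ 2 + 25 + (x2 - x) * x = x2 * x + 25 by ring] at h1
    by_contra hle
    push Not at hle
    have h1 : padicNorm p (xc (R + R + R) * x * ((x2 - x) * (x2 - x))) < 1 :=
      mul_lt' (mul_le hle hxi) (mul_lt hdiff hdiff.le)
    rw [← pow_two, hprod, pow_two, padicNorm.mul, hu, mul_one] at h1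
    exact lt_irrefl _ h1

/-- Job KILL. -/
theorem kill (g : Grp) (r : Red) : Kill where
  c2 := by
    intro p hp h7 R hR a ha
    obtain ⟨m, rfl⟩ := ha
    have e : (2 * m + 1) • R = R + m • (R + R) := by
      rw [add_zsmul, one_zsmul, mul_comm, mul_zsmul, two_zsmul]
      abel
    rw [e]
    exact k2_shift r hp (ker_zsmul g r hp (dbl_ker g hp h7 hR) m) hR
  c3 := by
    intro p hp h7 R hR a ha
    have hK := triple_ker g hp h7 hR
    have h3 : ∀ m : ℤ, (3 * m) • R = m • (R + R + R) := by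
      intro m
      rw [mul_comm, mul_zsmul]
      congr 1
      rw [show (3 : ℤ) = 1 + 1 + 1 by norm_num, add_zsmul, add_zsmul, one_zsmul]
    have : a % 3 = 1 ∨ a % 3 = 2 := by omega
    rcases this with h1 | h1
    · obtain ⟨m, rfl⟩ : ∃ m, a = 3 * m + 1 := ⟨a / 3, by omega⟩
      rw [add_zsmul, one_zsmul, h3, add_comm]
      exact k3_shift r hp (ker_zsmul g r hp hK m) hR
    · obtain ⟨m, rfl⟩ : ∃ m, a = 3 * m - 1 := ⟨(a + 1) / 3, by omega⟩
      rw [sub_zsmul, one_zsmul, h3, add_comm]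
      exact k3_shift r hp (ker_zsmul g r hp hK m) (k3_neg g hR)
  k3 := by
    intro p hp h7 R hR a ha
    obtain ⟨m, rfl⟩ := ha
    have hK := triple_ker g hp h7 hR
    have h3 : (3 * m) • R = m • (R + R + R) := by
      rw [mul_comm, mul_zsmul]
      congr 1
      rw [show (3 : ℤ) = 1 + 1 + 1 by norm_num, add_zsmul, add_zsmul, one_zsmul]
    rw [h3]
    exact ker_zsmul g r hp hK m

end Pool.Agent.Y431.RW
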